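import Pool.Agent.Q301.SF.NCx

/-!
# A zero-dimensional subspace of the real line that is not `ℕ`-compact

If there is a model of ZF, then there is a model of ZF in which some zero-dimensional subspace of
the real line is not `ℕ`-compact.

The model is the basic Cohen model. It has a set `D` of real numbers that is dense in the unit
interval, such that for every subset `J` of `D` all but finitely many points `d` of `J` have a
neighbourhood that meets `D \ J` in a finite set. The space is the complement `X` of `D` in the unit
interval (its two end points removed). For a map `e` of `X` to a power of `ℕ`, all but finitely many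
points `d` of `D` are such that each coordinate of `e` is constant on the points of `X` in an
interval below `d`; the limit at `d` is in the closure of `e[X]`, but not in `e[X]` if `e` is an
embedding.
-/

namespace Pool.Agent.Results.MP_1eff47_lc.NotNCompact

open FirstOrder FirstOrder.Language
open Pool.Agent.Helper672.Plain (LSet El Mem)
open Pool.Agent.H635Amen (ZF IsReals)
open Pool.Agent.Q301.BM (IsUsualTop)
open Pool.Agent.Q301.TM (IsSubspace IsT1 IsZeroDim IsNCompact)
open Pool.Agent.Q301.SF

universe u

theorem result (h : ∃ (M : Type u) (_ : LSet.Structure M), ZF M) :
    ∃ (N : Type u) (_ : LSet.Structure N), ZF N ∧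
      ∃ (r : N) (_ : Field (El r)) (_ : LinearOrder (El r)) (_ : IsStrictOrderedRing (El r)),
        IsReals r ∧ ∃ tE x t : N, IsUsualTop tE r ∧ (∀ z, Mem z x → Mem z r) ∧
          IsSubspace t x tE ∧ IsT1 t x ∧ IsZeroDim t x ∧ ¬ IsNCompact t x :=
  p1eff47 h

end Pool.Agent.Results.MP_1eff47_lc.NotNCompact
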